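import Pool.Agent.Work.MP_4c212b_al.Main

/-!
# Linear bound for the Fitting height of a coprime soluble group of automorphisms

For a finite soluble group `A` acting coprimely on a finite soluble group `G`, with `l` the number
of prime factors of `|A|` counted with multiplicity and `r` the rank of `C_G(A)`, the quotient
`G / F_(4 l + 2)(G)` has order (hence rank) bounded in terms of `|A|` and `r` only.
-/

set_option autoImplicit false

open Subgroup
open scoped commutatorElement

namespace Pool.Agent.Results.MP_4c212b_al.LinearFitting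

/-- The Fitting subgroup: the join of all nilpotent normal subgroups (for a finite group it is the
largest one). -/
def fittingSubgroup (G : Type*) [Group G] : Subgroup G :=
  sSup {N : Subgroup G | N.Normal ∧ Group.IsNilpotent N}

theorem fittingSubgroup_normal (G : Type*) [Group G] : (fittingSubgroup G).Normal := by
  unfold fittingSubgroup
  rw [sSup_eq_iSup]
  constructor
  intro n hn g
  have key : (⨆ N ∈ {N : Subgroup G | N.Normal ∧ Group.IsNilpotent N}, N) ≤
      (⨆ N ∈ {N : Subgroup G | N.Normal ∧ Group.IsNilpotent N}, N).comap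
        (MulAut.conj g).toMonoidHom := by
    refine iSup₂_le fun N hN => ?_
    intro x hx
    have hN1 : N.Normal := hN.1
    have h2 : g * x * g⁻¹ ∈ N := hN1.conj_mem x hx g
    exact (le_iSup₂ (f := fun (N : Subgroup G)
      (_ : N ∈ {N : Subgroup G | N.Normal ∧ Group.IsNilpotent N}) => N) N hN) h2
  exact key hn

/-- The Fitting series as normal subgroups: `F 0 = 1` and `F (k + 1)` is the preimage in `G` of the
Fitting subgroup of `G / F k`. -/
def fittingAux (G : Type*) [Group G] : ℕ → {N : Subgroup G // N.Normal}
  | 0 => ⟨⊥, inferInstance⟩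
  | k + 1 =>
    have _h : (fittingAux G k).1.Normal := (fittingAux G k).2
    ⟨(fittingSubgroup (G ⧸ (fittingAux G k).1)).comap (QuotientGroup.mk' (fittingAux G k).1),
      (fittingSubgroup_normal _).comap _⟩

/-- The Fitting series `F_k(G)`. -/
def fittingSeries (G : Type*) [Group G] (k : ℕ) : Subgroup G := (fittingAux G k).1

instance fittingSeries_normal (G : Type*) [Group G] (k : ℕ) : (fittingSeries G k).Normal :=
  (fittingAux G k).2

/-- The rank of a (finite) group `H`: the least `r` such that every subgroup of `H` is generated by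
at most `r` elements. -/
noncomputable def subgroupRank (H : Type*) [Group H] : ℕ :=
  sInf {r : ℕ | ∀ K : Subgroup H, ∃ S : Finset H, S.card ≤ r ∧ closure (S : Set H) = K}

theorem fittingSeries_zero (G : Type*) [Group G] : fittingSeries G 0 = ⊥ := rfl

theorem fittingSeries_succ (G : Type*) [Group G] (k : ℕ) : fittingSeries G (k + 1) =
    (fittingSubgroup (G ⧸ fittingSeries G k)).comap (QuotientGroup.mk' (fittingSeries G k)) := rfl

theorem fittingSeries_le_succ (G : Type*) [Group G] (k : ℕ) :
    fittingSeries G k ≤ fittingSeries G (k + 1) := by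
  intro x hx
  rw [fittingSeries_succ, mem_comap]
  have : QuotientGroup.mk' (fittingSeries G k) x = 1 := (QuotientGroup.eq_one_iff x).2 hx
  rw [this]
  exact one_mem _

theorem fittingSeries_mono (G : Type*) [Group G] : Monotone (fittingSeries G) :=
  monotone_nat_of_le_succ (fittingSeries_le_succ G)

theorem subgroupRank_spec (H : Type*) [Group H] [Finite H] :
    ∀ K : Subgroup H, ∃ S : Finset H, S.card ≤ subgroupRank H ∧ closure (S : Set H) = K := by
  classical
  have hne : {r : ℕ | ∀ K : Subgroup H, ∃ S : Finset H, S.card ≤ r ∧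
      closure (S : Set H) = K}.Nonempty := by
    refine ⟨Nat.card H, fun K => ?_⟩
    have : Fintype H := Fintype.ofFinite H
    refine ⟨Finset.univ.filter (· ∈ K), ?_, ?_⟩
    · rw [Nat.card_eq_fintype_card]
      exact Finset.card_le_univ _
    · have : ((Finset.univ.filter (· ∈ K) : Finset H) : Set H) = (K : Set H) := by
        ext x; simp
      rw [this, closure_eq]
  exact Nat.sInf_mem hne

theorem subgroupRank_le_card (H : Type*) [Group H] [Finite H] : subgroupRank H ≤ Nat.card H := by
  classical
  apply Nat.sInf_le
  intro K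
  have : Fintype H := Fintype.ofFinite H
  refine ⟨Finset.univ.filter (· ∈ K), ?_, ?_⟩
  · rw [Nat.card_eq_fintype_card]
    exact Finset.card_le_univ _
  · have : ((Finset.univ.filter (· ∈ K) : Finset H) : Set H) = (K : Set H) := by
      ext x; simp
    rw [this, closure_eq]

open Pool.FH

/-- A series of the kind used in the proof lies below the Fitting series. -/
theorem le_fittingSeries {G : Type} [Group G] [Finite G] {n : ℕ} {s : ℕ → Subgroup G}
    (hs0 : s 0 = ⊥) (hsn : ∀ i, (s i).Normal)
    (hsc : ∀ i, i < n → ∀ a b : ℕ, a.Prime → b.Prime → a ≠ b → ∀ x ∈ s (i + 1), ∀ y ∈ s (i + 1),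
      (∃ n : ℕ, x ^ a ^ n = 1) → (∃ n : ℕ, y ^ b ^ n = 1) → ⁅x, y⁆ ∈ s i) :
    ∀ i, i ≤ n → s i ≤ fittingSeries G i := by
  intro i
  induction i with
  | zero => intro _; rw [hs0]; exact bot_le
  | succ i ih =>
    intro hi
    have hle := ih (by omega)
    have hn := hsn i
    have hnil : Group.IsNilpotent ((s (i + 1)).map (QuotientGroup.mk' (s i))) := by
      apply FIN.nilpotent_of_comm
      rintro a b ha hb hab ⟨_, x, hx, rfl⟩ ⟨_, y, hy, rfl⟩ ⟨n, hn1⟩ ⟨n', hn2⟩
      have : Fact a.Prime := ⟨ha⟩
      have : Fact b.Prime := ⟨hb⟩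
      have hx1 : (QuotientGroup.mk' (s i) x) ^ a ^ n = 1 := congrArg Subtype.val hn1
      have hy1 : (QuotientGroup.mk' (s i) y) ^ b ^ n' = 1 := congrArg Subtype.val hn2
      obtain ⟨u, hu, hu'⟩ := lift_pelt _ ha hx1
      obtain ⟨v, hv, hv'⟩ := lift_pelt _ hb hy1
      have h2 := hsc i (by omega) a b ha hb hab _ (pow_mem hx u) _ (pow_mem hy v) hu' hv'
      apply Subtype.ext
      change QuotientGroup.mk' (s i) x * QuotientGroup.mk' (s i) y =
        QuotientGroup.mk' (s i) y * QuotientGroup.mk' (s i) x
      rw [← commutatorElement_eq_one_iff_mul_comm, ← hu, ← hv, ← map_commutatorElement]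
      exact (QuotientGroup.eq_one_iff _).2 h2
    -- the image in `G / F_i`
    set F := fittingSeries G i with hF
    let q : G ⧸ s i →* G ⧸ F := QuotientGroup.map (s i) F (MonoidHom.id G) (by
      intro x hx; exact hle hx)
    have himg : ((s (i + 1)).map (QuotientGroup.mk' (s i))).map q =
        (s (i + 1)).map (QuotientGroup.mk' F) := by
      rw [Subgroup.map_map]
      congr 1
    have hnil2 : Group.IsNilpotent ((s (i + 1)).map (QuotientGroup.mk' F)) := by
      rw [← himg]
      exact Group.nilpotent_of_surjective (f := q.subgroupMap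
        ((s (i + 1)).map (QuotientGroup.mk' (s i)))) (q.subgroupMap_surjective _)
    have hnorm : ((s (i + 1)).map (QuotientGroup.mk' F)).Normal :=
      (hsn (i + 1)).map _ (QuotientGroup.mk'_surjective F)
    have hmem : (s (i + 1)).map (QuotientGroup.mk' F) ≤ fittingSubgroup (G ⧸ F) :=
      le_sSup ⟨hnorm, hnil2⟩
    rw [fittingSeries_succ]
    exact (map_le_iff_le_comap).1 hmem


/-- The bound for subgroups of the automorphism group. -/
theorem core : ∃ g : ℕ → ℕ → ℕ, ∀ (G : Type) [Group G] [Finite G] (A : Subgroup (MulAut G)),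
    Group.IsSolvable G → Group.IsSolvable A → Nat.Coprime (Nat.card A) (Nat.card G) → ∀ r : ℕ,
    (∀ K : Subgroup (fixAut (A : Set (MulAut G))), ∃ S : Finset (fixAut (A : Set (MulAut G))),
      S.card ≤ r ∧ closure (S : Set (fixAut (A : Set (MulAut G)))) = K) →
    (fittingSeries G (4 * (Nat.card A).primeFactorsList.length + 2)).index ≤
      g (Nat.card A) r := by
  classical
  choose μ hμ using main_S1
  choose b hb using FIN.chain main_CH
  refine ⟨fun n r => b n (μ r), ?_⟩
  intro G _ _ A hG hA hcop r hrC
  have hG' : Group.IsSolvable G := hG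
  have hCsol : Group.IsSolvable (fixAut (A : Set (MulAut G))) := inferInstance
  have h1 := hμ r _ hCsol hrC
  obtain ⟨s, hs0, hsn, hsm, hsc, hsi⟩ := hb (Nat.card A) (μ r) 2 G A hG hA rfl hcop h1
  have hlen : 2 + 4 * (Nat.card A).primeFactorsList.length =
      4 * (Nat.card A).primeFactorsList.length + 2 := by ring
  rw [hlen] at hsc hsi
  have hle := le_fittingSeries hs0 hsn hsc _ le_rfl
  have h2 : (fittingSeries G (4 * (Nat.card A).primeFactorsList.length + 2)).index ≤
      (s (4 * (Nat.card A).primeFactorsList.length + 2)).index :=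
    Nat.le_of_dvd (Nat.pos_of_ne_zero index_ne_zero_of_finite) (index_dvd_of_le hle)
  exact h2.trans hsi

/-- Isomorphisms carry the Fitting subgroup to the Fitting subgroup. -/
theorem fitting_map {X Y : Type*} [Group X] [Group Y] (e : X ≃* Y) :
    fittingSubgroup X ≤ (fittingSubgroup Y).comap e.toMonoidHom := by
  refine sSup_le ?_
  rintro N ⟨hN, hN2⟩
  have h1 : (N.map e.toMonoidHom).Normal := hN.map _ e.surjective
  have h2 : Group.IsNilpotent (N.map e.toMonoidHom) :=
    Group.nilpotent_of_surjective (f := (e.toMonoidHom.subgroupMap N))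
      (e.toMonoidHom.subgroupMap_surjective N)
  have h3 : N.map e.toMonoidHom ≤ fittingSubgroup Y := le_sSup ⟨h1, h2⟩
  exact (map_le_iff_le_comap).1 h3

theorem fittingSeries_comap {X Y : Type*} [Group X] [Group Y] (e : X ≃* Y) (k : ℕ) :
    (fittingSeries Y k).comap e.toMonoidHom = fittingSeries X k := by
  induction k with
  | zero =>
    rw [fittingSeries_zero, fittingSeries_zero]
    ext x
    rw [mem_comap, mem_bot, mem_bot]
    exact e.map_eq_one_iff
  | succ k ih =>
    have hmap : (fittingSeries X k).map e.toMonoidHom = fittingSeries Y k := by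
      rw [← ih]
      exact map_comap_eq_self_of_surjective e.surjective _
    let q : X ⧸ fittingSeries X k ≃* Y ⧸ fittingSeries Y k :=
      QuotientGroup.congr _ _ e hmap
    have hq : ∀ x : X, q (QuotientGroup.mk' _ x) = QuotientGroup.mk' _ (e x) := fun x => rfl
    rw [fittingSeries_succ, fittingSeries_succ]
    ext x
    rw [mem_comap, mem_comap, mem_comap]
    constructor
    · intro hx
      have h1 := fitting_map q.symm hx
      rw [mem_comap] at h1
      change q.symm (QuotientGroup.mk' _ (e x)) ∈ _ at h1
      rw [← hq, q.symm_apply_apply] at h1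
      exact h1
    · intro hx
      have h1 := fitting_map q hx
      rw [mem_comap] at h1
      exact h1

/-- **Main theorem.** There is a function `g` such that for every finite soluble group `A` acting
coprimely by automorphisms on a finite soluble group `G`, with `l` the number of prime factors of
`|A|` counted with multiplicity and `r` the rank of `C_G(A)`, the quotient `G / F_(4 l + 2)(G)` has
order at most `g |A| r`; in particular its rank is at most `g |A| r`. -/
theorem result : ∃ g : ℕ → ℕ → ℕ, ∀ (A G : Type*) [Group A] [Finite A] [Group G] [Finite G]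
    [MulDistribMulAction A G], Group.IsSolvable A → Group.IsSolvable G →
    Nat.Coprime (Nat.card A) (Nat.card G) →
    Nat.card (G ⧸ fittingSeries G (4 * (Nat.card A).primeFactorsList.length + 2)) ≤
      g (Nat.card A) (subgroupRank (FixedPoints.subgroup A G)) ∧
    subgroupRank (G ⧸ fittingSeries G (4 * (Nat.card A).primeFactorsList.length + 2)) ≤
      g (Nat.card A) (subgroupRank (FixedPoints.subgroup A G)) := by
  classical
  obtain ⟨g, hg⟩ := core
  refine ⟨fun n r => ∑ d ∈ n.divisors, g d r, ?_⟩
  intro A G _ _ _ _ _ hA hG hcop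
  have key : Nat.card (G ⧸ fittingSeries G (4 * (Nat.card A).primeFactorsList.length + 2)) ≤
      ∑ d ∈ (Nat.card A).divisors, g d (subgroupRank (FixedPoints.subgroup A G)) := by
    set l := (Nat.card A).primeFactorsList.length with hl
    -- a copy of `G` in `Type`
    obtain ⟨G0, _, _, ⟨e⟩⟩ : ∃ (G0 : Type) (_ : Group G0) (_ : Finite G0), Nonempty (G ≃* G0) :=
      ⟨Shrink.{0} G, inferInstance, Finite.of_equiv G (equivShrink.{0} G),
        ⟨(Shrink.mulEquiv.{0} (α := G)).symm⟩⟩
    -- the group of automorphisms induced on it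
    let α : A →* MulAut G0 := (MulAut.congr e).toMonoidHom.comp (MulDistribMulAction.toMulAut A G)
    have hα : ∀ (a : A) (x : G0), α a x = e (a • e.symm x) := fun a x => rfl
    let A0 : Subgroup (MulAut G0) := α.range
    have hdvd : Nat.card A0 ∣ Nat.card A := Subgroup.card_range_dvd α
    have hA' : Group.IsSolvable A := hA
    have hG' : Group.IsSolvable G := hG
    have hA0 : Group.IsSolvable A0 := Group.isSolvable_of_surjective (f := α.rangeRestrict)
      α.rangeRestrict_surjective
    have hG0 : Group.IsSolvable G0 := Group.isSolvable_of_surjective (f := e.toMonoidHom)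
      e.surjective
    have hcard : Nat.card G0 = Nat.card G := (Nat.card_congr e.toEquiv).symm
    have hcop0 : Nat.Coprime (Nat.card A0) (Nat.card G0) := by
      rw [hcard]; exact hcop.coprime_dvd_left hdvd
    set r := subgroupRank (FixedPoints.subgroup A G) with hr
    -- the fixed points
    let ψ : FixedPoints.subgroup A G ≃* fixAut (A0 : Set (MulAut G0)) :=
      { toFun := fun x => ⟨e x.1, by
          rintro _ ⟨a, rfl⟩
          rw [hα, e.symm_apply_apply]
          rw [x.2 a]⟩
        invFun := fun y => ⟨e.symm y.1, fun a => by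
          have h1 := y.2 (α a) ⟨a, rfl⟩
          rw [hα] at h1
          have h2 := congrArg e.symm h1
          rwa [e.symm_apply_apply] at h2⟩
        left_inv := fun x => Subtype.ext (by simp)
        right_inv := fun y => Subtype.ext (by simp)
        map_mul' := fun x y => Subtype.ext (by simp) }
    have hrank : ∀ K : Subgroup (fixAut (A0 : Set (MulAut G0))),
        ∃ S : Finset (fixAut (A0 : Set (MulAut G0))),
        S.card ≤ r ∧ closure (S : Set (fixAut (A0 : Set (MulAut G0)))) = K := by
      intro K
      obtain ⟨S, hS, hSK⟩ := subgroupRank_spec (FixedPoints.subgroup A G)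
        (K.comap ψ.toMonoidHom)
      refine ⟨S.image ψ, Finset.card_image_le.trans hS, ?_⟩
      rw [Finset.coe_image]
      have h1 : closure (ψ '' (S : Set (FixedPoints.subgroup A G))) =
          (closure (S : Set (FixedPoints.subgroup A G))).map ψ.toMonoidHom :=
        (MonoidHom.map_closure ψ.toMonoidHom _).symm
      rw [h1, hSK]
      exact map_comap_eq_self_of_surjective ψ.surjective _
    have hb := hg G0 A0 hG0 hA0 hcop0 r hrank
    set l0 := (Nat.card A0).primeFactorsList.length with hl0
    have hpos : Nat.card A ≠ 0 := Nat.card_pos.ne'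
    have hl0l : l0 ≤ l := by
      obtain ⟨c, hc⟩ := hdvd
      have hc0 : c ≠ 0 := by rintro rfl; rw [mul_zero] at hc; exact hpos hc
      have hA00 : Nat.card A0 ≠ 0 := Nat.card_pos.ne'
      rw [hl, hl0, hc, (Nat.perm_primeFactorsList_mul hA00 hc0).length_eq, List.length_append]
      omega
    have hmono : fittingSeries G (4 * l0 + 2) ≤ fittingSeries G (4 * l + 2) :=
      fittingSeries_mono G (by omega)
    have hidx : (fittingSeries G (4 * l0 + 2)).index = (fittingSeries G0 (4 * l0 + 2)).index := by
      rw [← fittingSeries_comap e (4 * l0 + 2)]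
      exact index_comap_of_surjective _ e.surjective
    have h3 : Nat.card (G ⧸ fittingSeries G (4 * l + 2)) ≤ g (Nat.card A0) r := by
      change (fittingSeries G (4 * l + 2)).index ≤ _
      refine (Nat.le_of_dvd (Nat.pos_of_ne_zero index_ne_zero_of_finite)
        (index_dvd_of_le hmono)).trans ?_
      rw [hidx]
      exact hb
    refine h3.trans ?_
    exact Finset.single_le_sum (f := fun d => g d r) (fun _ _ => Nat.zero_le _)
      (Nat.mem_divisors.2 ⟨hdvd, hpos⟩)
  exact ⟨key, (subgroupRank_le_card _).trans key⟩

end Pool.Agent.Results.MP_4c212b_al.LinearFitting
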